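import Pool.Agent.TOR.StmtsX

/-!
# TOR, block X, row XFC: factors of thin polynomials are thin
-/

set_option autoImplicit false

namespace Pool.Agent.TOR.H10

open MvPolynomial
open Pool.Agent.TOR

/-- a part of a polynomial -/
theorem xfc_part (p : MvPolynomial ℕ ℚ) (P : (ℕ →₀ ℕ) → Prop) [DecidablePred P] :
    ∃ q : MvPolynomial ℕ ℚ, ∀ m, coeff m q = if P m then coeff m p else 0 := by
  classical
  refine ⟨∑ m ∈ p.support.filter P, monomial m (coeff m p), fun m => ?_⟩
  rw [coeff_sum]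
  simp only [coeff_monomial]
  rw [Finset.sum_ite_eq']
  by_cases hP : P m
  · by_cases hm : m ∈ p.support
    · rw [if_pos (Finset.mem_filter.2 ⟨hm, hP⟩), if_pos hP]
    · rw [if_neg (fun h => hm (Finset.mem_filter.1 h).1), if_pos hP]
      exact (notMem_support_iff.1 hm).symm
  · rw [if_neg (fun h => hP (Finset.mem_filter.1 h).2), if_neg hP]

/-- the part of the largest weight of a product -/
theorem xfc_top (ω : (ℕ →₀ ℕ) → ℚ) (hω : ∀ a b, ω (a + b) = ω a + ω b)
    (g h : MvPolynomial ℕ ℚ) (M N : ℚ) (hg : ∃ a ∈ g.support, ω a = M)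
    (hg' : ∀ a ∈ g.support, ω a ≤ M) (hh : ∃ a ∈ h.support, ω a = N)
    (hh' : ∀ a ∈ h.support, ω a ≤ N) : ∃ m ∈ (g * h).support, ω m = M + N := by
  classical
  obtain ⟨G, hG⟩ := xfc_part g (fun m => ω m = M)
  obtain ⟨H, hH⟩ := xfc_part h (fun m => ω m = N)
  have hG0 : G ≠ 0 := by
    obtain ⟨a, ha, ha'⟩ := hg
    intro h0
    have h1 := hG a
    rw [h0, coeff_zero, if_pos ha'] at h1
    exact mem_support_iff.1 ha h1.symm
  have hH0 : H ≠ 0 := by
    obtain ⟨a, ha, ha'⟩ := hh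
    intro h0
    have h1 := hH a
    rw [h0, coeff_zero, if_pos ha'] at h1
    exact mem_support_iff.1 ha h1.symm
  obtain ⟨m, hm⟩ := support_nonempty.2 (mul_ne_zero hG0 hH0)
  have hωm : ω m = M + N := by
    by_contra hne
    apply mem_support_iff.1 hm
    rw [coeff_mul]
    apply Finset.sum_eq_zero
    rintro ⟨a, b⟩ hab
    rw [Finset.HasAntidiagonal.mem_antidiagonal] at hab
    dsimp only at hab ⊢
    rw [hG, hH]
    by_cases ha : ω a = M
    · by_cases hb : ω b = N
      · exfalso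
        apply hne
        rw [← hab, hω, ha, hb]
      · rw [if_neg hb, mul_zero]
    · rw [if_neg ha, zero_mul]
  refine ⟨m, ?_, hωm⟩
  rw [mem_support_iff] at hm ⊢
  have heq : coeff m (g * h) = coeff m (G * H) := by
    rw [coeff_mul, coeff_mul]
    refine Finset.sum_congr rfl ?_
    rintro ⟨a, b⟩ hab
    rw [Finset.HasAntidiagonal.mem_antidiagonal] at hab
    dsimp only at hab ⊢
    rw [hG, hH]
    by_cases ha0 : coeff a g = 0
    · rw [ha0, ite_self, zero_mul, zero_mul]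
    by_cases hb0 : coeff b h = 0
    · rw [hb0, ite_self, mul_zero, mul_zero]
    have ha1 := hg' a (mem_support_iff.2 ha0)
    have hb1 := hh' b (mem_support_iff.2 hb0)
    have hs : ω a + ω b = M + N := by rw [← hω, hab, hωm]
    have ha2 : ω a = M := by linarith
    have hb2 : ω b = N := by linarith
    rw [if_pos ha2, if_pos hb2]
  rw [heq]
  exact hm

/-- a weight which is constant on the monomials of a product is constant on the monomials of the
factors -/
theorem xfc_const (ω : (ℕ →₀ ℕ) → ℚ) (hω : ∀ a b, ω (a + b) = ω a + ω b)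
    (g h : MvPolynomial ℕ ℚ) (hg : g ≠ 0) (hh : h ≠ 0)
    (hc : ∀ m ∈ (g * h).support, ∀ m' ∈ (g * h).support, ω m = ω m') :
    ∀ m ∈ g.support, ∀ m' ∈ g.support, ω m = ω m' := by
  classical
  obtain ⟨a1, ha1, ha1'⟩ := Finset.exists_max_image g.support ω (support_nonempty.2 hg)
  obtain ⟨a2, ha2, ha2'⟩ := Finset.exists_min_image g.support ω (support_nonempty.2 hg)
  obtain ⟨b1, hb1, hb1'⟩ := Finset.exists_max_image h.support ω (support_nonempty.2 hh)
  obtain ⟨b2, hb2, hb2'⟩ := Finset.exists_min_image h.support ω (support_nonempty.2 hh)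
  obtain ⟨m1, hm1, hm1'⟩ := xfc_top ω hω g h (ω a1) (ω b1) ⟨a1, ha1, rfl⟩ ha1' ⟨b1, hb1, rfl⟩ hb1'
  obtain ⟨m2, hm2, hm2'⟩ := xfc_top (fun m => - ω m) (fun a b => by rw [hω]; ring) g h
    (- ω a2) (- ω b2) ⟨a2, ha2, rfl⟩ (fun a ha => neg_le_neg (ha2' a ha)) ⟨b2, hb2, rfl⟩
    (fun a ha => neg_le_neg (hb2' a ha))
  have h1 := hc m1 hm1 m2 hm2
  have h2 := ha1' a2 ha2
  have h3 := hb1' b2 hb2
  have h4 : ω a1 = ω a2 := by linarith
  intro m hm m' hm'
  have h5 := ha1' m hm
  have h6 := ha2' m hm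
  have h7 := ha1' m' hm'
  have h8 := ha2' m' hm'
  linarith

theorem xfc_vec_add (a b : ℕ →₀ ℕ) : vec (a + b) = vec a + vec b := by
  ext i
  simp [vec]

theorem xfc : XfcStmt := by
  classical
  intro n c D f g hf hf0 hgf
  obtain ⟨h, rfl⟩ := hgf
  obtain ⟨h1, h2, h3⟩ := hf
  have hg0 : g ≠ 0 := left_ne_zero_of_mul hf0
  have hh0 : h ≠ 0 := right_ne_zero_of_mul hf0
  refine ⟨?_, ?_, ?_⟩
  · intro i hi
    apply h1
    rw [mem_vars_iff_degreeOf_ne_zero] at hi ⊢
    rw [degreeOf_mul_eq hg0 hh0]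
    omega
  · exact (totalDegree_le_of_dvd_of_isDomain (Dvd.intro h rfl) hf0).trans h2
  · refine le_trans ?_ h3
    have := finiteDimensional_vectorSpan_of_finite ℚ
      (((g * h).support.finite_toSet).image vec)
    apply Submodule.finrank_mono
    rw [vectorSpan_def, Submodule.span_le]
    rintro _ ⟨_, ⟨s, hs, rfl⟩, _, ⟨s', hs', rfl⟩, rfl⟩
    by_contra hnot
    obtain ⟨φ, hφ, hφ'⟩ := Submodule.exists_le_ker_of_notMem (K := ℚ) hnot
    have hc := xfc_const (fun m => φ (vec m)) (fun a b => by rw [xfc_vec_add, map_add]) g h hg0 hh0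
      (by
        intro m hm m' hm'
        have h4 : vec m -ᵥ vec m' ∈ vectorSpan ℚ (vec '' ((g * h).support : Set (ℕ →₀ ℕ))) :=
          vsub_mem_vectorSpan ℚ ⟨m, hm, rfl⟩ ⟨m', hm', rfl⟩
        have h5 := hφ' h4
        rw [LinearMap.mem_ker, vsub_eq_sub, map_sub, sub_eq_zero] at h5
        exact h5)
    have h6 := hc s hs s' hs'
    apply hφ
    dsimp only at h6 ⊢
    rw [vsub_eq_sub, map_sub, h6, sub_self]

end Pool.Agent.TOR.H10
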